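import Pool.Agent.W838.DC.Stm

/-! Project DC: the potential exists. -/

set_option autoImplicit false

namespace Pool.Agent.W591.DC

open Pool.Agent.W838.DC

variable {V X : Type*} [AddCommGroup V] (σ : Sys V X)

theorem pot (hC : S_CNT σ) : S_POT σ := by
  classical
  have hlt : ∀ x z b, σ.Arr x z b → σ.mu (σ.r b x) < σ.mu x := fun x z b h =>
    (hC x b h.2.1.1).1
  let G : (x : X) → ((y : X) → σ.mu y < σ.mu x → V → ℤ) → V → ℤ := fun x ih z =>
    (insert (σ.ht (σ.lab x z)) ((σ.Φ.filter (fun b => σ.Arr x z b)).attach.image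
      (fun b => ih (σ.r b.1 x) (hlt x z b.1 (Finset.mem_filter.1 b.2).2) z))).max'
      (Finset.insert_nonempty _ _)
  let wf : WellFounded (fun y x : X => σ.mu y < σ.mu x) := InvImage.wf σ.mu Nat.lt_wfRel.wf
  let h : X → V → ℤ := wf.fix G
  have hh : ∀ x z, h x z = (insert (σ.ht (σ.lab x z)) ((σ.Φ.filter (fun b => σ.Arr x z b)).attach.image
      (fun b => h (σ.r b.1 x) z))).max' (Finset.insert_nonempty _ _) := by
    intro x z
    have := congrFun (wf.fix_eq G x) z
    exact this
  refine ⟨h, ?_, ?_, ?_⟩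
  · intro x a
    rw [hh]
    exact Finset.le_max' _ _ (Finset.mem_insert_self _ _)
  · intro x z b hb
    rw [hh x z]
    apply Finset.le_max'
    apply Finset.mem_insert_of_mem
    rw [Finset.mem_image]
    exact ⟨⟨b, Finset.mem_filter.2 ⟨hb.2.1.1.1, hb⟩⟩, Finset.mem_attach _ _, rfl⟩
  · intro x z
    have hm := Finset.max'_mem (insert (σ.ht (σ.lab x z))
      ((σ.Φ.filter (fun b => σ.Arr x z b)).attach.image
      (fun b => h (σ.r b.1 x) z))) (Finset.insert_nonempty _ _)
    rw [← hh, Finset.mem_insert, Finset.mem_image] at hm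
    rcases hm with hm | ⟨b, -, hb⟩
    · exact Or.inl hm
    · exact Or.inr ⟨b.1, (Finset.mem_filter.1 b.2).2, hb.symm⟩

end Pool.Agent.W591.DC
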